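import Mathlib

set_option autoImplicit false

/-! Volume of the set where a linear form is small (helper7, WT). -/

namespace Pool.Agent.J4H2.WT

open MeasureTheory Set

theorem vol_form {n : ℕ} (c t L : ℝ) (b : Fin (n + 1) → ℝ) (i0 : Fin (n + 1)) (hb : b i0 ≠ 0) (hL : 0 ≤ L) (ht : 0 ≤ t) :
    volume {α : Fin (n + 1) → ℝ | (∀ i, α i ∈ Icc 0 L) ∧ |c + ∑ i, α i * b i| ≤ t} ≤
      ENNReal.ofReal (2 * t / |b i0| * L ^ n) := by
  set S : Set (Fin (n + 1) → ℝ) := {α | (∀ i, α i ∈ Icc 0 L) ∧ |c + ∑ i, α i * b i| ≤ t} with hS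
  have hSm : MeasurableSet S := by
    apply MeasurableSet.inter
    · have : {α : Fin (n + 1) → ℝ | ∀ i, α i ∈ Icc 0 L} = ⋂ i, (fun α : Fin (n + 1) → ℝ => α i) ⁻¹' Icc 0 L := by
        ext α; simp
      rw [show (fun α : Fin (n + 1) → ℝ => ∀ i, α i ∈ Icc 0 L) = {α : Fin (n + 1) → ℝ | ∀ i, α i ∈ Icc 0 L} from rfl, this]
      exact MeasurableSet.iInter fun i => measurableSet_Icc.preimage (measurable_pi_apply i)
    · have hc : Continuous fun α : Fin (n + 1) → ℝ => |c + ∑ i, α i * b i| := by fun_prop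
      exact measurableSet_le hc.measurable measurable_const
  have hmp := (volume_preserving_piFinSuccAbove (fun _ : Fin (n + 1) => ℝ) i0).symm
  rw [← hmp.measure_preimage hSm.nullMeasurableSet, Measure.volume_eq_prod]
  have hSm' := hmp.measurable hSm
  rw [Measure.prod_apply_symm hSm']
  have hb0 : 0 < |b i0| := abs_pos.2 hb
  have hsl : ∀ y : Fin n → ℝ, volume ((fun x : ℝ => (x, y)) ⁻¹'
      ((MeasurableEquiv.piFinSuccAbove (fun _ : Fin (n + 1) => ℝ) i0).symm ⁻¹' S)) ≤
      (Set.pi univ (fun _ : Fin n => Icc (0 : ℝ) L)).indicator (fun _ => ENNReal.ofReal (2 * t / |b i0|)) y := by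
    intro y
    by_cases hy : y ∈ Set.pi univ (fun _ : Fin n => Icc (0 : ℝ) L)
    · rw [indicator_of_mem hy]
      set d : ℝ := c + ∑ j, y j * b (i0.succAbove j) with hd
      have hsub : ((fun x : ℝ => (x, y)) ⁻¹'
          ((MeasurableEquiv.piFinSuccAbove (fun _ : Fin (n + 1) => ℝ) i0).symm ⁻¹' S)) ⊆
          Icc ((-d) / b i0 - t / |b i0|) ((-d) / b i0 + t / |b i0|) := by
        intro x hx
        have h1 : |c + ∑ i, (i0.insertNth x y : Fin (n + 1) → ℝ) i * b i| ≤ t := hx.2
        rw [Fin.sum_univ_succAbove _ i0] at h1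
        simp only [Fin.insertNth_apply_same, Fin.insertNth_apply_succAbove] at h1
        have h2 : c + (x * b i0 + ∑ j, y j * b (i0.succAbove j)) = b i0 * (x - (-d) / b i0) := by
          rw [hd]; field_simp; ring
        rw [h2, abs_mul] at h1
        have h3 : |x - (-d) / b i0| ≤ t / |b i0| := by
          rw [le_div_iff₀ hb0]; linarith
        rw [abs_le] at h3
        constructor <;> linarith [h3.1, h3.2]
      refine (measure_mono hsub).trans (le_of_eq ?_)
      rw [Real.volume_Icc]
      congr 1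
      ring
    · rw [indicator_of_notMem hy]
      have : ((fun x : ℝ => (x, y)) ⁻¹'
          ((MeasurableEquiv.piFinSuccAbove (fun _ : Fin (n + 1) => ℝ) i0).symm ⁻¹' S)) = ∅ := by
        rw [eq_empty_iff_forall_notMem]
        intro x hx
        apply hy
        rw [Set.mem_univ_pi]
        intro j
        have h1 := hx.1 (i0.succAbove j)
        have h2 : ((MeasurableEquiv.piFinSuccAbove (fun _ : Fin (n + 1) => ℝ) i0).symm (x, y)) (i0.succAbove j) = y j := by
          show (i0.insertNth x y : Fin (n + 1) → ℝ) (i0.succAbove j) = y j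
          simp
        rw [h2] at h1
        exact h1
      rw [this]; simp
  refine (lintegral_mono hsl).trans ?_
  rw [lintegral_indicator_const (MeasurableSet.univ_pi fun _ => measurableSet_Icc)]
  rw [volume_pi_pi]
  simp only [Real.volume_Icc, sub_zero, Finset.prod_const, Finset.card_univ, Fintype.card_fin]
  rw [← ENNReal.ofReal_pow hL, ← ENNReal.ofReal_mul (by positivity)]

end Pool.Agent.J4H2.WT
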